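import Mathlib

open Finset

set_option linter.unusedSectionVars false

namespace Pool.Agent.N788.Star

variable {V : Type*} [NormedAddCommGroup V] [InnerProductSpace ℝ V]

/-- energy of the first `N` steps of a chain -/
noncomputable def energy (N : ℕ) (x : ℕ → V) : ℝ := ∑ i ∈ range N, ‖x (i + 1) - x i‖ ^ 2

/-- length of the first `N` steps of a chain -/
noncomputable def len (N : ℕ) (x : ℕ → V) : ℝ := ∑ i ∈ range N, ‖x (i + 1) - x i‖

lemma energy_nonneg (N : ℕ) (x : ℕ → V) : 0 ≤ energy N x :=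
  Finset.sum_nonneg fun _ _ => by positivity

/-- A chain in `E` from `a` to `b` with `N` steps. -/
structure IsChainIn (E : Set V) (a b : V) (N : ℕ) (x : ℕ → V) : Prop where
  mem : ∀ i, x i ∈ E
  zero : x 0 = a
  last : x N = b

/-- existence of an energy minimising chain -/
lemma exists_min {E : Set V} (hE : IsCompact E) {a b : V} (ha : a ∈ E) (hb : b ∈ E) {N : ℕ}
    (hN : 1 ≤ N) :
    ∃ x : ℕ → V, IsChainIn E a b N x ∧ ∀ y : ℕ → V, IsChainIn E a b N y →
      energy N x ≤ energy N y := by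
  have hK : IsCompact {x : ℕ → V | IsChainIn E a b N x} := by
    have h1 : IsCompact (Set.pi Set.univ (fun _ : ℕ => E)) := isCompact_univ_pi fun _ => hE
    refine h1.of_isClosed_subset ?_ ?_
    · have : {x : ℕ → V | IsChainIn E a b N x} =
          (Set.pi Set.univ (fun _ : ℕ => E)) ∩ ({x : ℕ → V | x 0 = a} ∩ {x : ℕ → V | x N = b}) := by
        ext x
        constructor
        · rintro ⟨h1, h2, h3⟩
          exact ⟨fun i _ => h1 i, h2, h3⟩
        · rintro ⟨h1, h2, h3⟩
          exact ⟨fun i => h1 i trivial, h2, h3⟩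
      rw [this]
      refine IsClosed.inter (isClosed_set_pi fun _ _ => hE.isClosed) (IsClosed.inter ?_ ?_)
      · exact isClosed_eq (continuous_apply 0) continuous_const
      · exact isClosed_eq (continuous_apply N) continuous_const
    · intro x hx i _
      exact hx.mem i
  have hne : {x : ℕ → V | IsChainIn E a b N x}.Nonempty := by
    refine ⟨fun i => if i = 0 then a else b, ⟨?_, ?_, ?_⟩⟩
    · intro i
      by_cases h : i = 0 <;> simp [h, ha, hb]
    · simp
    · have : N ≠ 0 := by omega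
      simp [this]
  have hcont : Continuous fun x : ℕ → V => energy N x := by
    unfold energy
    refine continuous_finsetSum _ fun i _ => ?_
    exact ((continuous_apply (i + 1)).sub (continuous_apply i)).norm.pow 2
  obtain ⟨x, hx, hmin⟩ := hK.exists_isMinOn hne hcont.continuousOn
  exact ⟨x, hx, fun y hy => hmin hy⟩

/-- changing one interior point of a chain -/
lemma energy_update (N : ℕ) (x : ℕ → V) (k : ℕ) (hk : k + 2 ≤ N) (v : V) :
    energy N (Function.update x (k + 1) v) - energy N x =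
      (‖v - x k‖ ^ 2 + ‖x (k + 2) - v‖ ^ 2) -
        (‖x (k + 1) - x k‖ ^ 2 + ‖x (k + 2) - x (k + 1)‖ ^ 2) := by
  unfold energy
  rw [← Finset.sum_sub_distrib]
  rw [Finset.sum_eq_add_of_mem k (k + 1) (by simp; omega) (by simp; omega) (by omega)]
  · simp [Function.update_of_ne, Function.update_self]
    ring
  · intro c hc hne
    obtain ⟨h1, h2⟩ := hne
    have e1 : Function.update x (k + 1) v (c + 1) = x (c + 1) :=
      Function.update_of_ne (by omega) _ _
    have e2 : Function.update x (k + 1) v c = x c :=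
      Function.update_of_ne (by omega) _ _
    rw [e1, e2]
    ring

/-- local minimality of a minimising chain -/
lemma local_min {E : Set V} {a b : V} {N : ℕ} {x : ℕ → V} (hx : IsChainIn E a b N x)
    (hmin : ∀ y : ℕ → V, IsChainIn E a b N y → energy N x ≤ energy N y)
    {k : ℕ} (hk : k + 2 ≤ N) {v : V} (hv : v ∈ E) :
    ‖x (k + 1) - x k‖ ^ 2 + ‖x (k + 2) - x (k + 1)‖ ^ 2 ≤
      ‖v - x k‖ ^ 2 + ‖x (k + 2) - v‖ ^ 2 := by
  have h1 := energy_update N x k hk v
  have h2 : IsChainIn E a b N (Function.update x (k + 1) v) := by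
    refine ⟨?_, ?_, ?_⟩
    · intro i
      by_cases h : i = k + 1
      · subst h
        simpa using hv
      · rw [Function.update_of_ne h]
        exact hx.mem i
    · rw [Function.update_of_ne (by omega)]
      exact hx.zero
    · rw [Function.update_of_ne (by omega)]
      exact hx.last
  have h3 := hmin _ h2
  linarith

/-- The key inequality at a vertex of a minimising chain. -/
lemma vertex_ineq {E : Set V} {a b c p : V}
    (hmin : ∀ v ∈ E, ‖c - a‖ ^ 2 + ‖b - c‖ ^ 2 ≤ ‖v - a‖ ^ 2 + ‖b - v‖ ^ 2)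
    (h : (1 / 2 : ℝ) • (a + b) ∈ E ∨ ∃ τ > (0 : ℝ), ∀ t ∈ Set.Icc (0 : ℝ) τ, c + t • (p - c) ∈ E) :
    ‖c - a‖ ^ 2 + ‖b - c‖ ^ 2 ≤ (‖a - p‖ ^ 2 - ‖c - p‖ ^ 2) + (‖b - p‖ ^ 2 - ‖c - p‖ ^ 2) := by
  -- identity
  have hid : (‖a - p‖ ^ 2 - ‖c - p‖ ^ 2) + (‖b - p‖ ^ 2 - ‖c - p‖ ^ 2) =
      ‖c - a‖ ^ 2 + ‖b - c‖ ^ 2 + 2 * inner ℝ (a + b - (2 : ℝ) • c) (c - p) := by
    have e1 : a - p = (a - c) + (c - p) := by abel
    have e2 : b - p = (b - c) + (c - p) := by abel
    have e3 : c - a = -(a - c) := by abel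
    have e4 : a + b - (2 : ℝ) • c = (a - c) + (b - c) := by
      rw [two_smul]; abel
    rw [e1, e2, e3, e4, norm_neg, norm_add_sq_real, norm_add_sq_real, inner_add_left]
    ring
  rw [hid]
  suffices hs : 0 ≤ inner ℝ (a + b - (2 : ℝ) • c) (c - p) by linarith
  rcases h with h | ⟨τ, hτ, h⟩
  · have h1 := hmin _ h
    have key : ‖c - a‖ ^ 2 + ‖b - c‖ ^ 2 =
        ‖(1 / 2 : ℝ) • (a + b) - a‖ ^ 2 + ‖b - (1 / 2 : ℝ) • (a + b)‖ ^ 2
          + 2 * ‖c - (1 / 2 : ℝ) • (a + b)‖ ^ 2 := by
      set m := (1 / 2 : ℝ) • (a + b) with hm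
      have e1 : c - a = (c - m) + (m - a) := by abel
      have e2 : b - c = (b - m) - (c - m) := by abel
      have e3 : m - a = b - m := by
        rw [hm]
        module
      rw [e1, e2, e3, norm_add_sq_real (c - m) (b - m), norm_sub_sq_real (b - m) (c - m),
        real_inner_comm (c - m) (b - m)]
      ring
    have h2 : ‖c - (1 / 2 : ℝ) • (a + b)‖ ^ 2 ≤ 0 := by linarith
    have h3 : c - (1 / 2 : ℝ) • (a + b) = 0 := by
      have : ‖c - (1 / 2 : ℝ) • (a + b)‖ = 0 := by
        have := sq_nonneg ‖c - (1 / 2 : ℝ) • (a + b)‖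
        exact pow_eq_zero_iff (two_ne_zero) |>.1 (le_antisymm h2 this)
      simpa using this
    have h4 : a + b - (2 : ℝ) • c = 0 := by
      have : a + b - (2 : ℝ) • c = -((2 : ℝ) • (c - (1 / 2 : ℝ) • (a + b))) := by module
      rw [this, h3]; simp
    rw [h4]; simp
  · by_contra hneg
    push Not at hneg
    set I := inner ℝ (a + b - (2 : ℝ) • c) (c - p) with hI
    -- for all t in (0, τ]
    have hall : ∀ t ∈ Set.Ioc (0 : ℝ) τ, 0 ≤ I + t * ‖p - c‖ ^ 2 := by
      intro t ht
      have h1 := hmin _ (h t ⟨ht.1.le, ht.2⟩)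
      have e1 : c + t • (p - c) - a = (c - a) + t • (p - c) := by abel
      have e2 : b - (c + t • (p - c)) = (b - c) - t • (p - c) := by abel
      rw [e1, e2, norm_add_sq_real (c - a) (t • (p - c)), norm_sub_sq_real (b - c) (t • (p - c)),
        norm_smul, inner_smul_right, inner_smul_right] at h1
      have e3 : I = inner ℝ (c - a) (p - c) - inner ℝ (b - c) (p - c) := by
        rw [hI]
        have f1 : a + b - (2 : ℝ) • c = (b - c) - (c - a) := by rw [two_smul]; abel
        have f2 : c - p = -(p - c) := by abel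
        rw [f1, f2, inner_neg_right, inner_sub_left]
        ring
      have e4 : (‖t‖ * ‖p - c‖) ^ 2 = t ^ 2 * ‖p - c‖ ^ 2 := by
        rw [mul_pow, Real.norm_eq_abs, sq_abs]
      rw [e4] at h1
      have h2 : 0 ≤ 2 * t * (I + t * ‖p - c‖ ^ 2) := by
        rw [e3]
        nlinarith [h1]
      have h3 : 0 < 2 * t := by linarith [ht.1]
      exact nonneg_of_mul_nonneg_right h2 h3
    -- choose small t
    set B := ‖p - c‖ ^ 2 with hB
    have hB0 : 0 ≤ B := by positivity
    have hden : 0 < 2 * (B + 1) := by linarith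
    set t := min τ (-I / (2 * (B + 1))) with ht
    have ht0 : 0 < t := lt_min hτ (div_pos (by linarith) hden)
    have h1 := hall t ⟨ht0, min_le_left _ _⟩
    have h2 : t ≤ -I / (2 * (B + 1)) := min_le_right _ _
    have h3 : t * (2 * (B + 1)) ≤ -I := by
      rwa [le_div_iff₀ hden] at h2
    nlinarith

end Pool.Agent.N788.Star
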