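import Mathlib

open Finset

namespace Pool.Agent.N788.Star

/-- summation of a discrete convexity inequality -/
lemma sum_ineq (q d : ℕ → ℝ) (N : ℕ) (h0 : 1 ≤ N → d 0 ^ 2 ≤ q 1 - q 0)
    (hk : ∀ k, k + 2 ≤ N → d k ^ 2 + d (k + 1) ^ 2 + (q (k + 1) - q k) ≤ q (k + 2) - q (k + 1)) :
    ∑ j ∈ range N, (2 * ((N : ℝ) - j) - 1) * d j ^ 2 ≤ q N - q 0 := by
  have h1 : ∀ k, k < N → d k ^ 2 + 2 * ∑ j ∈ range k, d j ^ 2 ≤ q (k + 1) - q k := by
    intro k
    induction k with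
    | zero => intro h; simpa using h0 h
    | succ k ih =>
      intro h
      have := ih (by omega)
      have h2 := hk k (by omega)
      rw [Finset.sum_range_succ]
      linarith
  have h2 : ∀ n, n ≤ N → ∑ j ∈ range n, (2 * ((n : ℝ) - j) - 1) * d j ^ 2 ≤ q n - q 0 := by
    intro n
    induction n with
    | zero => intro _; simp
    | succ n ih =>
      intro h
      have h3 := ih (by omega)
      have h4 := h1 n (by omega)
      rw [Finset.sum_range_succ]
      have h5 : ∑ j ∈ range n, (2 * (((n + 1 : ℕ) : ℝ) - j) - 1) * d j ^ 2 =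
          ∑ j ∈ range n, (2 * ((n : ℝ) - j) - 1) * d j ^ 2 + 2 * ∑ j ∈ range n, d j ^ 2 := by
        rw [Finset.mul_sum, ← Finset.sum_add_distrib]
        refine Finset.sum_congr rfl fun j _ => ?_
        push_cast
        ring
      rw [h5]
      push_cast
      linarith
  exact h2 N le_rfl

lemma sum_odd (N : ℕ) : ∑ j ∈ range N, (2 * ((N : ℝ) - j) - 1) = (N : ℝ) ^ 2 := by
  induction N with
  | zero => simp
  | succ n ih =>
    rw [Finset.sum_range_succ]
    have h5 : ∑ j ∈ range n, (2 * (((n + 1 : ℕ) : ℝ) - j) - 1) =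
          ∑ j ∈ range n, (2 * ((n : ℝ) - j) - 1) + 2 * n := by
      have : (2 : ℝ) * n = ∑ j ∈ range n, (2 : ℝ) := by simp; ring
      rw [this, ← Finset.sum_add_distrib]
      refine Finset.sum_congr rfl fun j _ => ?_
      push_cast
      ring
    rw [h5, ih]
    push_cast
    ring

/-- the weighted sum of squares is close to the square of the length when the energy is nearly
optimal -/
lemma weighted (N : ℕ) (hN : 1 ≤ N) (d : ℕ → ℝ) (hd : ∀ j, 0 ≤ d j) (A : ℝ)
    (hA : (N : ℝ) * ∑ j ∈ range N, d j ^ 2 ≤ A) :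
    (∑ j ∈ range N, d j) ^ 2 - 4 * (∑ j ∈ range N, d j) *
        Real.sqrt (A - (∑ j ∈ range N, d j) ^ 2) ≤
      ∑ j ∈ range N, (2 * ((N : ℝ) - j) - 1) * d j ^ 2 := by
  set D := ∑ j ∈ range N, d j with hD
  set S := ∑ j ∈ range N, d j ^ 2 with hS
  set c : ℕ → ℝ := fun j => 2 * ((N : ℝ) - j) - 1 with hc
  have hN0 : (0 : ℝ) < N := by exact_mod_cast hN
  have hD0 : 0 ≤ D := Finset.sum_nonneg fun j _ => hd j
  have hc0 : ∀ j ∈ range N, 0 ≤ c j ∧ c j ≤ 2 * N := by
    intro j hj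
    have : (j : ℝ) + 1 ≤ N := by exact_mod_cast Finset.mem_range.1 hj
    have h0 : (0 : ℝ) ≤ j := Nat.cast_nonneg j
    constructor <;> simp only [hc] <;> linarith
  have hcs : ∑ j ∈ range N, c j = (N : ℝ) ^ 2 := sum_odd N
  -- deviations
  set δ : ℕ → ℝ := fun j => d j - D / N with hδ
  have hδ2 : ∑ j ∈ range N, δ j ^ 2 = S - D ^ 2 / N := by
    have : ∀ j ∈ range N, δ j ^ 2 = d j ^ 2 - 2 * (D / N) * d j + (D / N) ^ 2 := by
      intro j _; simp only [hδ]; ring
    rw [Finset.sum_congr rfl this, Finset.sum_add_distrib, Finset.sum_sub_distrib, ← Finset.mul_sum,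
      ← hS, ← hD]
    simp only [Finset.sum_const, Finset.card_range, nsmul_eq_mul]
    field_simp
    ring
  have hcd : ∑ j ∈ range N, c j * d j = N * D + ∑ j ∈ range N, c j * δ j := by
    have : ∀ j ∈ range N, c j * d j = c j * (D / N) + c j * δ j := by
      intro j _; simp only [hδ]; ring
    rw [Finset.sum_congr rfl this, Finset.sum_add_distrib, ← Finset.sum_mul, hcs]
    field_simp
  have hc2 : ∑ j ∈ range N, c j ^ 2 ≤ 4 * (N : ℝ) ^ 3 := by
    calc ∑ j ∈ range N, c j ^ 2 ≤ ∑ j ∈ range N, (2 * (N : ℝ)) ^ 2 := by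
          refine Finset.sum_le_sum fun j hj => ?_
          have := hc0 j hj
          exact pow_le_pow_left₀ this.1 this.2 2
      _ = 4 * (N : ℝ) ^ 3 := by simp; ring
  have hcauchy : (∑ j ∈ range N, c j * δ j) ^ 2 ≤ (2 * N) ^ 2 * (A - D ^ 2) := by
    calc (∑ j ∈ range N, c j * δ j) ^ 2 ≤ (∑ j ∈ range N, c j ^ 2) * ∑ j ∈ range N, δ j ^ 2 :=
          Finset.sum_mul_sq_le_sq_mul_sq _ _ _
      _ ≤ 4 * (N : ℝ) ^ 3 * ∑ j ∈ range N, δ j ^ 2 := by
          refine mul_le_mul_of_nonneg_right hc2 ?_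
          exact Finset.sum_nonneg fun _ _ => sq_nonneg _
      _ = (2 * N) ^ 2 * (N * S - D ^ 2) := by rw [hδ2]; field_simp; ring
      _ ≤ (2 * N) ^ 2 * (A - D ^ 2) := by
          refine mul_le_mul_of_nonneg_left ?_ (by positivity)
          linarith
  have hA0 : 0 ≤ A - D ^ 2 := by
    have h1 : 0 ≤ (2 * (N : ℝ)) ^ 2 * (A - D ^ 2) := le_trans (sq_nonneg _) hcauchy
    exact nonneg_of_mul_nonneg_right h1 (by positivity)
  have hlow : -(2 * N * Real.sqrt (A - D ^ 2)) ≤ ∑ j ∈ range N, c j * δ j := by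
    have h1 : (∑ j ∈ range N, c j * δ j) ^ 2 ≤ (2 * N * Real.sqrt (A - D ^ 2)) ^ 2 := by
      rw [mul_pow, Real.sq_sqrt hA0]; exact hcauchy
    exact (abs_le.1 (abs_le_of_sq_le_sq h1 (by positivity))).1
  -- tangent inequality
  have htan : 2 * (D / N) * ∑ j ∈ range N, c j * d j - (D / N) ^ 2 * N ^ 2 ≤
      ∑ j ∈ range N, c j * d j ^ 2 := by
    rw [← hcs, Finset.mul_sum, Finset.mul_sum, ← Finset.sum_sub_distrib]
    refine Finset.sum_le_sum fun j hj => ?_
    have := (hc0 j hj).1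
    nlinarith [mul_nonneg this (sq_nonneg (d j - D / N))]
  have h2 : 0 ≤ 2 * (D / N) := by positivity
  calc D ^ 2 - 4 * D * Real.sqrt (A - D ^ 2)
      = 2 * (D / N) * (N * D - 2 * N * Real.sqrt (A - D ^ 2)) - (D / N) ^ 2 * N ^ 2 := by
        field_simp; ring
    _ ≤ 2 * (D / N) * ∑ j ∈ range N, c j * d j - (D / N) ^ 2 * N ^ 2 := by
        have : N * D - 2 * N * Real.sqrt (A - D ^ 2) ≤ ∑ j ∈ range N, c j * d j := by
          rw [hcd]; linarith
        have := mul_le_mul_of_nonneg_left this h2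
        linarith
    _ ≤ _ := htan

/-- selection of an index with prescribed partial sum -/
lemma exists_index (d : ℕ → ℝ) (N : ℕ) (η : ℝ) (hη : 0 ≤ η)
    (hdη : ∀ j < N, d j ≤ η) (c : ℝ) (hc0 : 0 ≤ c) (hcD : c ≤ ∑ j ∈ range N, d j) :
    ∃ i ≤ N, c ≤ ∑ j ∈ range i, d j ∧ ∑ j ∈ range i, d j ≤ c + η := by
  classical
  have hex : ∃ i, c ≤ ∑ j ∈ range i, d j := ⟨N, hcD⟩
  refine ⟨Nat.find hex, Nat.find_min' hex hcD, Nat.find_spec hex, ?_⟩
  rcases Nat.eq_zero_or_pos (Nat.find hex) with h | h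
  · rw [h]; simp; linarith
  · obtain ⟨k, hk⟩ : ∃ k, Nat.find hex = k + 1 := ⟨Nat.find hex - 1, by omega⟩
    have h1 : ¬ c ≤ ∑ j ∈ range k, d j := Nat.find_min hex (by omega)
    push Not at h1
    rw [hk, Finset.sum_range_succ]
    have h2 : k < N := by
      have := Nat.find_min' hex hcD
      omega
    have := hdη k h2
    linarith

end Pool.Agent.N788.Star
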