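import Mathlib
import Pool.Agent.N788.Star.Chain
import Pool.Agent.N788.Star.Sums

open Finset Filter Topology

set_option linter.unusedSectionVars false

namespace Pool.Agent.N788.Star

variable {V : Type*} [NormedAddCommGroup V] [InnerProductSpace ℝ V]

lemma norm_sub_le_partial (x : ℕ → V) : ∀ i j : ℕ, i ≤ j →
    ‖x j - x i‖ ≤ ∑ k ∈ range j, ‖x (k + 1) - x k‖ - ∑ k ∈ range i, ‖x (k + 1) - x k‖ := by
  intro i j hij
  induction j, hij using Nat.le_induction with
  | base => simp
  | succ j hj ih =>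
    rw [Finset.sum_range_succ]
    have : x (j + 1) - x i = (x (j + 1) - x j) + (x j - x i) := by abel
    rw [this]
    refine (norm_add_le _ _).trans ?_
    linarith

lemma norm_sub_le_abs (x : ℕ → V) (i j : ℕ) :
    ‖x j - x i‖ ≤ |∑ k ∈ range j, ‖x (k + 1) - x k‖ - ∑ k ∈ range i, ‖x (k + 1) - x k‖| := by
  rcases le_total i j with h | h
  · exact (norm_sub_le_partial x i j h).trans (le_abs_self _)
  · rw [norm_sub_rev, abs_sub_comm]
    exact (norm_sub_le_partial x j i h).trans (le_abs_self _)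

/-- Regridding a fine chain to a chain with `M` steps. -/
lemma regrid {E : Set V} {a b : V} {N : ℕ} {x : ℕ → V} (hx : IsChainIn E a b N x) {η : ℝ}
    (hη : 0 ≤ η) (hstep : ∀ j < N, ‖x (j + 1) - x j‖ ≤ η) {M : ℕ} (hM : 1 ≤ M) :
    ∃ y : ℕ → V, IsChainIn E a b M y ∧ ∀ k < M, ‖y (k + 1) - y k‖ ≤ len N x / M + η := by
  set s : ℕ → ℝ := fun i => ∑ k ∈ range i, ‖x (k + 1) - x k‖ with hs
  set D := len N x with hD
  have hDs : D = s N := rfl
  have hD0 : 0 ≤ D := Finset.sum_nonneg fun _ _ => norm_nonneg _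
  have hM0 : (0 : ℝ) < M := by exact_mod_cast hM
  have hex : ∀ k : ℕ, ∃ i, k ≤ M → (i ≤ N ∧ k * D / M ≤ s i ∧ s i ≤ k * D / M + η) := by
    intro k
    by_cases hk : k ≤ M
    · obtain ⟨i, hi, h1, h2⟩ := exists_index (fun j => ‖x (j + 1) - x j‖) N η hη hstep
        (k * D / M) (by positivity) (by
          rw [div_le_iff₀ hM0]
          have : (k : ℝ) ≤ M := by exact_mod_cast hk
          calc (k : ℝ) * D ≤ M * D := mul_le_mul_of_nonneg_right this hD0
            _ = _ := by rw [mul_comm]; rfl)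
      exact ⟨i, fun _ => ⟨hi, h1, h2⟩⟩
    · exact ⟨0, fun h => absurd h hk⟩
  choose g hg using hex
  set idx : ℕ → ℕ := fun k => if k = 0 then 0 else if M ≤ k then N else g k with hidx
  have hprop : ∀ k ≤ M, k * D / M ≤ s (idx k) ∧ s (idx k) ≤ k * D / M + η := by
    intro k hk
    by_cases h0 : k = 0
    · subst h0
      simp [hidx, hs, hη]
    · by_cases h1 : M ≤ k
      · have : k = M := le_antisymm hk h1
        subst this
        have : idx k = N := by simp [hidx, h0]
        rw [this, ← hDs]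
        have : (k : ℝ) * D / k = D := by field_simp
        rw [this]
        exact ⟨le_rfl, by linarith⟩
      · have : idx k = g k := by simp [hidx, h0, h1]
        rw [this]
        exact (hg k hk).2
  refine ⟨fun k => x (idx k), ⟨fun k => hx.mem _, ?_, ?_⟩, ?_⟩
  · simp only [hidx]; simp [hx.zero]
  · have : M ≠ 0 := by omega
    simp only [hidx]; simp [this, hx.last]
  · intro k hk
    refine (norm_sub_le_abs x (idx k) (idx (k + 1))).trans ?_
    have h1 := hprop k (by omega)
    have h2 := hprop (k + 1) (by omega)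
    push_cast at h2
    have h3 : ((k : ℝ) + 1) * D / M = k * D / M + D / M := by ring
    rw [h3] at h2
    have h4 : 0 ≤ D / M := by positivity
    rw [abs_le]
    constructor <;> linarith [h1.1, h1.2, h2.1, h2.2]

/-- The main estimate: given that the second difference inequality holds along all sufficiently
fine energy minimising chains, the `N`-step energies are controlled. -/
lemma main_limit {E : Set V} (hE : IsCompact E) {a b : V} (ha : a ∈ E) (hb : b ∈ E) {K : ℝ}
    (hK : ∀ N : ℕ, 1 ≤ N → ∃ x : ℕ → V, IsChainIn E a b N x ∧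
      ∀ j < N, ‖x (j + 1) - x j‖ ≤ K / N) (Q : ℝ) (N₀ : ℕ)
    (hQ : ∀ N ≥ N₀, 1 ≤ N → ∀ x : ℕ → V, IsChainIn E a b N x →
      (∀ y : ℕ → V, IsChainIn E a b N y → energy N x ≤ energy N y) →
      ∑ j ∈ range N, (2 * ((N : ℝ) - j) - 1) * ‖x (j + 1) - x j‖ ^ 2 ≤ Q) :
    ∀ N : ℕ, 1 ≤ N → ∃ x : ℕ → V, IsChainIn E a b N x ∧ (N : ℝ) * energy N x ≤ Q := by
  -- minimising chains
  have hmin : ∀ N : ℕ, ∃ x : ℕ → V, 1 ≤ N → (IsChainIn E a b N x ∧
      ∀ y : ℕ → V, IsChainIn E a b N y → energy N x ≤ energy N y) := by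
    intro N
    by_cases h : 1 ≤ N
    · obtain ⟨x, hx⟩ := exists_min hE ha hb h
      exact ⟨x, fun _ => hx⟩
    · exact ⟨fun _ => a, fun h' => absurd h' h⟩
  choose X hX using hmin
  set f : ℕ → ℝ := fun N => (N : ℝ) * energy N (X N) with hf
  have hf0 : ∀ N, 0 ≤ f N := fun N => mul_nonneg (Nat.cast_nonneg _) (energy_nonneg _ _)
  have hfK : ∀ N, 1 ≤ N → f N ≤ K ^ 2 := by
    intro N hN
    obtain ⟨x, hx, hxK⟩ := hK N hN
    have hN0 : (0 : ℝ) < N := by exact_mod_cast hN
    have h1 := (hX N hN).2 x hx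
    have h2 : energy N x ≤ N * (K / N) ^ 2 := by
      unfold energy
      calc ∑ i ∈ range N, ‖x (i + 1) - x i‖ ^ 2 ≤ ∑ i ∈ range N, (K / N) ^ 2 :=
            Finset.sum_le_sum fun i hi =>
              pow_le_pow_left₀ (norm_nonneg _) (hxK i (Finset.mem_range.1 hi)) 2
        _ = _ := by simp
    calc f N ≤ N * (N * (K / N) ^ 2) := mul_le_mul_of_nonneg_left (h1.trans h2) hN0.le
      _ = K ^ 2 := by field_simp
  -- the supremum
  set A : ℝ := ⨆ N : ℕ, f (N + 1) with hAdef
  have hbdd : BddAbove (Set.range fun N : ℕ => f (N + 1)) := by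
    refine ⟨K ^ 2, ?_⟩
    rintro _ ⟨N, rfl⟩
    exact hfK _ (by omega)
  have hfA : ∀ N, 1 ≤ N → f N ≤ A := by
    intro N hN
    have := le_ciSup hbdd (N - 1)
    simpa [Nat.sub_add_cancel hN] using this
  have hA0 : 0 ≤ A := (hf0 1).trans (hfA 1 le_rfl)
  set D : ℕ → ℝ := fun N => len N (X N) with hDdef
  have hD0 : ∀ N, 0 ≤ D N := fun N => Finset.sum_nonneg fun _ _ => norm_nonneg _
  have hDA : ∀ N, 1 ≤ N → D N ^ 2 ≤ A := by
    intro N hN
    have h1 : D N ^ 2 ≤ N * energy N (X N) := by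
      have := sq_sum_le_card_mul_sum_sq (s := range N) (f := fun i => ‖X N (i + 1) - X N i‖)
      simpa [hDdef, len, energy] using this
    exact h1.trans (hfA N hN)
  have hDle : ∀ N, 1 ≤ N → D N ≤ Real.sqrt A := fun N hN => Real.le_sqrt_of_sq_le (hDA N hN)
  have hlow : ∀ M N : ℕ, 1 ≤ M → 1 ≤ N →
      Real.sqrt (f M) - M * Real.sqrt (A / N) ≤ D N := by
    intro M N hM hN
    have hN0 : (0 : ℝ) < N := by exact_mod_cast hN
    have hM0 : (0 : ℝ) < M := by exact_mod_cast hM
    set η := Real.sqrt (A / N) with hη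
    have hη0 : 0 ≤ η := Real.sqrt_nonneg _
    have hstep : ∀ j < N, ‖X N (j + 1) - X N j‖ ≤ η := by
      intro j hj
      refine Real.le_sqrt_of_sq_le ?_
      have h1 : ‖X N (j + 1) - X N j‖ ^ 2 ≤ energy N (X N) :=
        Finset.single_le_sum (f := fun i => ‖X N (i + 1) - X N i‖ ^ 2)
          (fun _ _ => sq_nonneg _) (Finset.mem_range.2 hj)
      have h2 : energy N (X N) ≤ A / N := by
        rw [le_div_iff₀ hN0, mul_comm]
        exact hfA N hN
      exact h1.trans h2
    obtain ⟨y, hy, hys⟩ := regrid (hX N hN).1 hη0 hstep hM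
    have h1 := (hX M hM).2 y hy
    have h2 : energy M y ≤ M * (D N / M + η) ^ 2 := by
      unfold energy
      calc ∑ i ∈ range M, ‖y (i + 1) - y i‖ ^ 2 ≤ ∑ i ∈ range M, (D N / M + η) ^ 2 :=
            Finset.sum_le_sum fun i hi =>
              pow_le_pow_left₀ (norm_nonneg _) (hys i (Finset.mem_range.1 hi)) 2
        _ = _ := by simp
    have h3 : f M ≤ (D N + M * η) ^ 2 := by
      calc f M ≤ M * (M * (D N / M + η) ^ 2) :=
            mul_le_mul_of_nonneg_left (h1.trans h2) hM0.le
        _ = (D N + M * η) ^ 2 := by field_simp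
    have h4 : Real.sqrt (f M) ≤ D N + M * η := by
      rw [Real.sqrt_le_left (by have := hD0 N; positivity)]
      exact h3
    linarith
  -- convergence of the lengths
  have hconv : Tendsto D atTop (𝓝 (Real.sqrt A)) := by
    rw [tendsto_order]
    constructor
    · intro c hc
      -- choose `M` with `c < √(f M)`
      have hM : ∃ M, 1 ≤ M ∧ c < Real.sqrt (f M) := by
        by_contra hcon
        push Not at hcon
        have hc0 : 0 ≤ c := (Real.sqrt_nonneg _).trans (hcon 1 le_rfl)
        have : A ≤ c ^ 2 := by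
          refine ciSup_le fun N => ?_
          have h1 := hcon (N + 1) (by omega)
          calc f (N + 1) = Real.sqrt (f (N + 1)) ^ 2 := (Real.sq_sqrt (hf0 _)).symm
            _ ≤ c ^ 2 := pow_le_pow_left₀ (Real.sqrt_nonneg _) h1 2
        have : Real.sqrt A ≤ c := by
          rw [Real.sqrt_le_left hc0]; exact this
        linarith
      obtain ⟨M, hM1, hM2⟩ := hM
      have hlim : Tendsto (fun N : ℕ => Real.sqrt (f M) - M * Real.sqrt (A / N)) atTop
          (𝓝 (Real.sqrt (f M) - M * Real.sqrt 0)) := by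
        have h1 : Tendsto (fun N : ℕ => A / (N : ℝ)) atTop (𝓝 0) :=
          tendsto_const_div_atTop_nhds_zero_nat A
        exact tendsto_const_nhds.sub
          (((Real.continuous_sqrt.tendsto 0).comp h1).const_mul (M : ℝ))
      rw [Real.sqrt_zero, mul_zero, sub_zero] at hlim
      filter_upwards [hlim.eventually (lt_mem_nhds hM2), eventually_ge_atTop 1] with N h1 h2
      exact h1.trans_le (hlow M N hM1 h2)
    · intro c hc
      filter_upwards [eventually_ge_atTop 1] with N hN
      exact (hDle N hN).trans_lt hc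
  -- pass to the limit
  have hQA : A ≤ Q := by
    have h1 : Tendsto (fun N => D N ^ 2 - 4 * D N * Real.sqrt (A - D N ^ 2)) atTop
        (𝓝 (Real.sqrt A ^ 2 - 4 * Real.sqrt A * Real.sqrt (A - Real.sqrt A ^ 2))) := by
      have hcont : Continuous fun t : ℝ => t ^ 2 - 4 * t * Real.sqrt (A - t ^ 2) := by
        fun_prop
      exact (hcont.tendsto _).comp hconv
    rw [Real.sq_sqrt hA0, sub_self, Real.sqrt_zero, mul_zero, sub_zero] at h1
    refine le_of_tendsto h1 ?_
    filter_upwards [eventually_ge_atTop (max N₀ 1)] with N hN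
    have hN0 : N₀ ≤ N := le_trans (le_max_left _ _) hN
    have hN1 : 1 ≤ N := le_trans (le_max_right _ _) hN
    have h2 := weighted N hN1 (fun j => ‖X N (j + 1) - X N j‖) (fun _ => norm_nonneg _) A
      (hfA N hN1)
    exact h2.trans (hQ N hN0 hN1 (X N) (hX N hN1).1 (hX N hN1).2)
  intro N hN
  exact ⟨X N, (hX N hN).1, (hfA N hN).trans hQA⟩

end Pool.Agent.N788.Star
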