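import Mathlib
import Pool.Agent.N788.Star.Geodesic

open Finset Filter Topology

set_option linter.unusedSectionVars false

namespace Pool.Agent.N788.Star

variable {V : Type*} [NormedAddCommGroup V] [InnerProductSpace ℝ V]

/-- The local condition at `c`: either `E` is locally convex at `c` (with radius `ρ`) or one can
move from `c` towards `p` inside `E`. -/
def LocalCond (E : Set V) (p : V) (ρ : ℝ) (c : V) : Prop :=
  (∀ u ∈ E, ∀ v ∈ E, ‖u - c‖ ≤ ρ → ‖v - c‖ ≤ ρ → segment ℝ u v ⊆ E) ∨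
    ∃ τ > (0 : ℝ), ∀ t ∈ Set.Icc (0 : ℝ) τ, c + t • (p - c) ∈ E

/-- uniform rectifiable connectedness -/
def Rect (E : Set V) (a b : V) : Prop :=
  ∃ K : ℝ, ∀ N : ℕ, 1 ≤ N → ∃ x : ℕ → V, IsChainIn E a b N x ∧ ∀ j < N, ‖x (j + 1) - x j‖ ≤ K / N

lemma quadrilateral {E : Set V} (hE : IsCompact E) {p : V} {ρ : ℝ} (hρ : 0 < ρ)
    (hloc : ∀ c ∈ E, LocalCond E p ρ c) {a b : V} (ha : a ∈ E) (hb : b ∈ E)
    (hrect : Rect E a b) (hnear : ∀ e ∈ E, ‖a - p‖ ≤ ‖e - p‖) :
    ∀ N : ℕ, 1 ≤ N → ∃ x : ℕ → V, IsChainIn E a b N x ∧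
      (N : ℝ) * energy N x ≤ ‖b - p‖ ^ 2 - ‖a - p‖ ^ 2 := by
  obtain ⟨K, hK⟩ := hrect
  obtain ⟨N₀, hN₀⟩ := exists_nat_ge (K ^ 2 / ρ ^ 2)
  refine main_limit hE ha hb hK _ N₀ ?_
  intro N hNN hN x hx hmin
  have hN0 : (0 : ℝ) < N := by exact_mod_cast hN
  -- the steps are small
  have hstep : ∀ j < N, ‖x (j + 1) - x j‖ ≤ ρ := by
    intro j hj
    obtain ⟨y, hy, hyK⟩ := hK N hN
    have h1 := hmin y hy
    have h2 : energy N y ≤ N * (K / N) ^ 2 := by
      unfold energy
      calc ∑ i ∈ range N, ‖y (i + 1) - y i‖ ^ 2 ≤ ∑ i ∈ range N, (K / N) ^ 2 :=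
            Finset.sum_le_sum fun i hi =>
              pow_le_pow_left₀ (norm_nonneg _) (hyK i (Finset.mem_range.1 hi)) 2
        _ = _ := by simp
    have h3 : ‖x (j + 1) - x j‖ ^ 2 ≤ energy N x :=
      Finset.single_le_sum (f := fun i => ‖x (i + 1) - x i‖ ^ 2)
        (fun _ _ => sq_nonneg _) (Finset.mem_range.2 hj)
    have h4 : (N : ℝ) * (K / N) ^ 2 = K ^ 2 / N := by field_simp
    have h5 : K ^ 2 / N ≤ ρ ^ 2 := by
      rw [div_le_iff₀ hN0]
      have h6 : K ^ 2 / ρ ^ 2 ≤ N := hN₀.trans (by exact_mod_cast hNN)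
      rw [div_le_iff₀ (by positivity)] at h6
      linarith
    have h6 : ‖x (j + 1) - x j‖ ^ 2 ≤ ρ ^ 2 := by linarith
    exact (pow_le_pow_iff_left₀ (norm_nonneg _) hρ.le two_ne_zero).1 h6
  -- summation
  have hsum := sum_ineq (fun i => ‖x i - p‖ ^ 2) (fun i => ‖x (i + 1) - x i‖) N ?_ ?_
  · simpa [hx.zero, hx.last] using hsum
  · -- the start
    intro _
    have hx0 : x 0 = a := hx.zero
    have hx1 : x 1 ∈ E := hx.mem 1
    have hs : ‖x 1 - a‖ ≤ ρ := by
      have := hstep 0 (by omega)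
      simpa [hx0] using this
    rw [hx0]
    have hid : ‖x 1 - p‖ ^ 2 - ‖a - p‖ ^ 2 = ‖x 1 - a‖ ^ 2 + 2 * inner ℝ (x 1 - a) (a - p) := by
      have : x 1 - p = (x 1 - a) + (a - p) := by abel
      rw [this, norm_add_sq_real]; ring
    show ‖x 1 - a‖ ^ 2 ≤ ‖x 1 - p‖ ^ 2 - ‖a - p‖ ^ 2
    rw [hid]
    suffices h : 0 ≤ inner ℝ (x 1 - a) (a - p) by linarith
    rcases hloc a ha with h | ⟨τ, hτ, h⟩
    · have hseg := h a ha (x 1) hx1 (by simpa using hρ.le) hs
      by_contra hneg
      push Not at hneg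
      set I := inner ℝ (x 1 - a) (a - p) with hI
      have hall : ∀ t ∈ Set.Ioc (0 : ℝ) 1, 0 ≤ 2 * I + t * ‖x 1 - a‖ ^ 2 := by
        intro t ht
        have hmem : a + t • (x 1 - a) ∈ E := by
          apply hseg
          rw [segment_eq_image']
          exact ⟨t, ⟨ht.1.le, ht.2⟩, rfl⟩
        have h1 := hnear _ hmem
        have h2 : ‖a - p‖ ^ 2 ≤ ‖a + t • (x 1 - a) - p‖ ^ 2 :=
          pow_le_pow_left₀ (norm_nonneg _) h1 2
        have e1 : a + t • (x 1 - a) - p = t • (x 1 - a) + (a - p) := by abel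
        rw [e1, norm_add_sq_real, inner_smul_left, norm_smul, mul_pow, Real.norm_eq_abs,
          sq_abs] at h2
        simp only [RCLike.conj_to_real] at h2
        have h3 : 0 ≤ t * (2 * I + t * ‖x 1 - a‖ ^ 2) := by nlinarith
        exact nonneg_of_mul_nonneg_right h3 ht.1
      set B := ‖x 1 - a‖ ^ 2 with hB
      have hB0 : 0 ≤ B := by positivity
      set t := min 1 (-I / (B + 1)) with ht
      have ht0 : 0 < t := lt_min one_pos (div_pos (by linarith) (by linarith))
      have h1 := hall t ⟨ht0, min_le_left _ _⟩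
      have h2 : t ≤ -I / (B + 1) := min_le_right _ _
      rw [le_div_iff₀ (by linarith)] at h2
      nlinarith
    · -- then `a = p`
      have hτ' : 0 < min τ 1 := lt_min hτ one_pos
      have hmem := h (min τ 1) ⟨hτ'.le, min_le_left _ _⟩
      have h1 := hnear _ hmem
      have e1 : a + (min τ 1) • (p - a) - p = (1 - min τ 1) • (a - p) := by module
      rw [e1, norm_smul, Real.norm_eq_abs, abs_of_nonneg (by linarith [min_le_right τ 1])] at h1
      have h2 : ‖a - p‖ = 0 := by
        have := norm_nonneg (a - p)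
        nlinarith
      have h3 : a - p = 0 := by simpa using h2
      rw [h3]; simp
  · intro k hk
    have hmem := hx.mem (k + 1)
    have hloc' := hloc _ hmem
    have h1 := vertex_ineq (E := E) (a := x k) (b := x (k + 2)) (c := x (k + 1)) (p := p)
      (fun v hv => local_min hx hmin hk hv) (by
        rcases hloc' with h | h
        · left
          have hseg := h (x k) (hx.mem k) (x (k + 2)) (hx.mem (k + 2))
            (by rw [norm_sub_rev]; exact hstep k (by omega))
            (hstep (k + 1) (by omega))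
          apply hseg
          rw [segment_eq_image']
          refine ⟨1 / 2, ⟨by norm_num, by norm_num⟩, ?_⟩
          module
        · exact Or.inr h)
    have e1 : k + 1 + 1 = k + 2 := rfl
    simp only [e1]
    linarith

/-- a chain of minimal energy between `p` and `b` is straight -/
lemma straight {p b : V} {N : ℕ} (hN : 1 ≤ N) {x : ℕ → V} (h0 : x 0 = p) (hb : x N = b)
    (hen : (N : ℝ) * energy N x ≤ ‖b - p‖ ^ 2) :
    ∀ j ≤ N, x j = p + ((j : ℝ) / N) • (b - p) := by
  have hN0 : (0 : ℝ) < N := by exact_mod_cast hN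
  set w : V := (1 / (N : ℝ)) • (b - p) with hw
  have hsum : ∑ i ∈ range N, (x (i + 1) - x i) = b - p := by
    rw [Finset.sum_range_sub, h0, hb]
  have hzero : ∑ i ∈ range N, ‖(x (i + 1) - x i) - w‖ ^ 2 ≤ 0 := by
    have h1 : ∀ i ∈ range N, ‖(x (i + 1) - x i) - w‖ ^ 2 =
        ‖x (i + 1) - x i‖ ^ 2 - 2 * inner ℝ (x (i + 1) - x i) w + ‖w‖ ^ 2 := by
      intro i _
      rw [norm_sub_sq_real]
    rw [Finset.sum_congr rfl h1, Finset.sum_add_distrib, Finset.sum_sub_distrib, ← Finset.mul_sum,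
      ← sum_inner, hsum]
    simp only [Finset.sum_const, Finset.card_range, nsmul_eq_mul]
    rw [hw, inner_smul_right, norm_smul, real_inner_self_eq_norm_sq, Real.norm_eq_abs, mul_pow,
      sq_abs]
    have h2 : energy N x ≤ ‖b - p‖ ^ 2 / N := by
      rw [le_div_iff₀ hN0]; linarith
    have h3 : ∑ i ∈ range N, ‖x (i + 1) - x i‖ ^ 2 = energy N x := rfl
    rw [h3]
    have h4 : energy N x - 2 * (1 / (N : ℝ) * ‖b - p‖ ^ 2) + N * ((1 / (N : ℝ)) ^ 2 * ‖b - p‖ ^ 2)
        = energy N x - ‖b - p‖ ^ 2 / N := by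
      field_simp; ring
    rw [h4]; linarith
  have hall : ∀ i ∈ range N, x (i + 1) - x i = w := by
    have h1 := (Finset.sum_eq_zero_iff_of_nonneg (s := range N)
      (f := fun i => ‖(x (i + 1) - x i) - w‖ ^ 2) (fun _ _ => sq_nonneg _)).1
      (le_antisymm hzero (Finset.sum_nonneg fun _ _ => sq_nonneg _))
    intro i hi
    have h2 := h1 i hi
    have h3 : ‖(x (i + 1) - x i) - w‖ = 0 := by simpa using h2
    have h4 : (x (i + 1) - x i) - w = 0 := by simpa using h3
    exact sub_eq_zero.1 h4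
  intro j
  induction j with
  | zero => intro _; simp [h0]
  | succ j ih =>
    intro hj
    have h1 := ih (by omega)
    have h2 := hall j (Finset.mem_range.2 (by omega))
    have h3 : x (j + 1) = x j + w := by rw [← h2]; abel
    rw [h3, h1, hw]
    push_cast
    module

/-- **Local to global.**  If `p` lies in the closed convex hull of the compact set `E`, if any two
points of `E` are rectifiably connected, and if at each point `E` is locally convex or one can move
towards `p`, then `p ∈ E` and `E` is starshaped with respect to `p`. -/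
theorem star_of_local {E : Set V} (hE : IsCompact E) (hne : E.Nonempty) {p : V} {ρ : ℝ}
    (hρ : 0 < ρ) (hloc : ∀ c ∈ E, LocalCond E p ρ c) (hrect : ∀ a ∈ E, ∀ b ∈ E, Rect E a b)
    (hp : p ∈ closure (convexHull ℝ E)) :
    p ∈ E ∧ ∀ b ∈ E, segment ℝ p b ⊆ E := by
  -- nearest point
  obtain ⟨a, ha, hmin⟩ := hE.exists_isMinOn hne (f := fun e => ‖e - p‖)
    (by fun_prop)
  have hnear : ∀ e ∈ E, ‖a - p‖ ≤ ‖e - p‖ := fun e he => hmin he
  have hquad := fun b (hb : b ∈ E) => quadrilateral hE hρ hloc ha hb (hrect a ha b hb) hnear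
  -- `a = p`
  have hhalf : ∀ b ∈ E, inner ℝ (b - a) (p - a) ≤ (0 : ℝ) := by
    intro b hb
    obtain ⟨x, hx, hxe⟩ := hquad b hb 1 le_rfl
    have h1 : energy 1 x = ‖b - a‖ ^ 2 := by
      simp [energy, hx.zero, hx.last]
    rw [h1] at hxe
    have h2 : ‖b - p‖ ^ 2 = ‖b - a‖ ^ 2 - 2 * inner ℝ (b - a) (p - a) + ‖p - a‖ ^ 2 := by
      have : b - p = (b - a) - (p - a) := by abel
      rw [this, norm_sub_sq_real]
    have h3 : ‖a - p‖ = ‖p - a‖ := norm_sub_rev _ _
    rw [h2, h3] at hxe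
    push_cast at hxe
    linarith
  have hpa : p = a := by
    have hsub : closure (convexHull ℝ E) ⊆ {z | inner ℝ (z - a) (p - a) ≤ (0 : ℝ)} := by
      have hclosed : IsClosed {z : V | inner ℝ (z - a) (p - a) ≤ (0 : ℝ)} :=
        isClosed_le (by fun_prop) continuous_const
      have hconv : Convex ℝ {z : V | inner ℝ (z - a) (p - a) ≤ (0 : ℝ)} := by
        intro u hu v hv s t hs ht hst
        simp only [Set.mem_ofPred_eq] at hu hv ⊢
        have : s • u + t • v - a = s • (u - a) + t • (v - a) := by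
          have : a = (s + t) • a := by rw [hst, one_smul]
          nth_rewrite 1 [this]
          module
        rw [this, inner_add_left, inner_smul_left, inner_smul_left]
        simp only [RCLike.conj_to_real]
        nlinarith
      exact closure_minimal (convexHull_min hhalf hconv) hclosed
    have h1 := hsub hp
    simp only [Set.mem_ofPred_eq, real_inner_self_eq_norm_sq] at h1
    have h2 : ‖p - a‖ = 0 := by
      have := sq_nonneg ‖p - a‖
      exact pow_eq_zero_iff two_ne_zero |>.1 (le_antisymm h1 this)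
    exact sub_eq_zero.1 (by simpa using h2)
  subst hpa
  refine ⟨ha, fun b hb => ?_⟩
  -- rational points of the segment
  have hrat : ∀ N : ℕ, 1 ≤ N → ∀ j ≤ N, p + ((j : ℝ) / N) • (b - p) ∈ E := by
    intro N hN j hj
    obtain ⟨x, hx, hxe⟩ := hquad b hb N hN
    rw [← straight hN hx.zero hx.last (by simpa using hxe) j hj]
    exact hx.mem j
  rw [segment_eq_image']
  rintro _ ⟨t, ht, rfl⟩
  -- approximation
  have hlim : Tendsto (fun N : ℕ => p + (((⌊t * N⌋₊ : ℕ) : ℝ) / N) • (b - p)) atTop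
      (𝓝 (p + t • (b - p))) := by
    have h1 : Tendsto (fun N : ℕ => ((⌊t * N⌋₊ : ℕ) : ℝ) / N) atTop (𝓝 t) := by
      exact (tendsto_nat_floor_mul_div_atTop ht.1).comp tendsto_natCast_atTop_atTop
    exact tendsto_const_nhds.add (h1.smul_const _)
  refine hE.isClosed.mem_of_tendsto hlim ?_
  filter_upwards [eventually_ge_atTop 1] with N hN
  refine hrat N hN _ ?_
  have : t * N ≤ N := by
    have : (0 : ℝ) ≤ N := Nat.cast_nonneg N
    nlinarith [ht.2]
  exact_mod_cast (Nat.floor_le (by have := ht.1; positivity)).trans this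

end Pool.Agent.N788.Star
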