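import Mathlib
import Pool.Agent.N788.Star.Local

open Finset Filter Topology

set_option linter.unusedSectionVars false

namespace Pool.Agent.N788.Star

variable {V : Type*} [NormedAddCommGroup V] [InnerProductSpace ℝ V]

lemma Rect.mem_left {E : Set V} {a b : V} (h : Rect E a b) : a ∈ E := by
  obtain ⟨K, hK⟩ := h
  obtain ⟨x, hx, -⟩ := hK 1 le_rfl
  rw [← hx.zero]; exact hx.mem 0

lemma Rect.mem_right {E : Set V} {a b : V} (h : Rect E a b) : b ∈ E := by
  obtain ⟨K, hK⟩ := h
  obtain ⟨x, hx, -⟩ := hK 1 le_rfl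
  rw [← hx.last]; exact hx.mem 1

lemma rect_of_segment {E : Set V} {a b : V} (h : segment ℝ a b ⊆ E) : Rect E a b := by
  refine ⟨‖b - a‖, fun N hN => ?_⟩
  have hN0 : (0 : ℝ) < N := by exact_mod_cast hN
  refine ⟨fun i => a + (min ((i : ℝ) / N) 1) • (b - a), ⟨fun i => ?_, ?_, ?_⟩, fun j hj => ?_⟩
  · apply h
    rw [segment_eq_image']
    exact ⟨_, ⟨le_min (by positivity) zero_le_one, min_le_right _ _⟩, rfl⟩
  · simp
  · show a + (min ((N : ℝ) / N) 1) • (b - a) = b
    rw [div_self hN0.ne', min_self, one_smul]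
    abel
  · beta_reduce
    have h1 : ((j : ℝ) + 1) ≤ N := by exact_mod_cast hj
    have h2 : ((j + 1 : ℕ) : ℝ) / N ≤ 1 := by
      rw [div_le_one hN0]; push_cast; exact h1
    have h3 : ((j : ℕ) : ℝ) / N ≤ 1 := by
      rw [div_le_one hN0]; linarith
    rw [min_eq_left h2, min_eq_left h3]
    have e : a + (((j + 1 : ℕ) : ℝ) / N) • (b - a) - (a + ((j : ℝ) / N) • (b - a)) =
        (1 / (N : ℝ)) • (b - a) := by
      push_cast
      rw [add_div]
      module
    rw [e, norm_smul, Real.norm_eq_abs, abs_of_nonneg (by positivity)]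
    apply le_of_eq
    ring

lemma Rect.symm {E : Set V} {a b : V} (h : Rect E a b) : Rect E b a := by
  obtain ⟨K, hK⟩ := h
  refine ⟨K, fun N hN => ?_⟩
  obtain ⟨x, hx, hs⟩ := hK N hN
  refine ⟨fun i => x (N - i), ⟨fun i => hx.mem _, by simpa using hx.last, by simpa using hx.zero⟩,
    fun j hj => ?_⟩
  simp only
  have h1 := hs (N - (j + 1)) (by omega)
  have e : N - (j + 1) + 1 = N - j := by omega
  rw [e] at h1
  rw [norm_sub_rev]
  exact h1

lemma Rect.trans {E : Set V} {a b c : V} (h₁ : Rect E a b) (h₂ : Rect E b c) : Rect E a c := by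
  have ha := h₁.mem_left
  have hc := h₂.mem_right
  obtain ⟨K₁, hK₁⟩ := h₁
  obtain ⟨K₂, hK₂⟩ := h₂
  refine ⟨3 * (|K₁| + |K₂|) + ‖c - a‖, fun N hN => ?_⟩
  have hN0 : (0 : ℝ) < N := by exact_mod_cast hN
  rcases Nat.lt_or_ge N 2 with h | h
  · have hN1 : N = 1 := by omega
    subst hN1
    refine ⟨fun i => if i = 0 then a else c, ⟨fun i => ?_, by simp, by simp⟩, fun j hj => ?_⟩
    · by_cases h : i = 0 <;> simp [h, ha, hc]
    · have : j = 0 := by omega
      subst this
      simp only [zero_add, one_ne_zero, if_false, if_true, Nat.cast_one, div_one]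
      have := abs_nonneg K₁
      have := abs_nonneg K₂
      linarith
  · set N₁ := N / 2 with hN₁
    have h1 : 1 ≤ N₁ := by omega
    obtain ⟨x, hx, hxs⟩ := hK₁ N₁ h1
    obtain ⟨y, hy, hys⟩ := hK₂ (N - N₁) (by omega)
    have hbound : ∀ (K : ℝ) (m : ℕ), N ≤ 3 * m → K / m ≤ 3 * |K| / N := by
      intro K m hm
      have hm0 : (0 : ℝ) < m := by
        have : 0 < m := by omega
        exact_mod_cast this
      have hm' : (N : ℝ) ≤ 3 * m := by exact_mod_cast hm
      rw [div_le_div_iff₀ hm0 hN0]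
      have h2 := le_abs_self K
      have h3 := abs_nonneg K
      nlinarith
    have hfin : ∀ K : ℝ, (K = K₁ ∨ K = K₂) →
        3 * |K| / N ≤ (3 * (|K₁| + |K₂|) + ‖c - a‖) / N := by
      intro K hK
      apply div_le_div_of_nonneg_right _ hN0.le
      have := norm_nonneg (c - a)
      have := abs_nonneg K₁
      have := abs_nonneg K₂
      rcases hK with h | h <;> rw [h] <;> linarith
    refine ⟨fun i => if i ≤ N₁ then x i else y (i - N₁), ⟨fun i => ?_, ?_, ?_⟩, fun j hj => ?_⟩
    · by_cases h : i ≤ N₁ <;> simp [h, hx.mem, hy.mem]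
    · simp [hx.zero]
    · have : ¬ N ≤ N₁ := by omega
      simp [this, hy.last]
    · rcases Nat.lt_or_ge j N₁ with h' | h'
      · have e1 : j + 1 ≤ N₁ := h'
        have e2 : j ≤ N₁ := h'.le
        simp only [e1, e2, if_true]
        exact (hxs j h').trans ((hbound K₁ N₁ (by omega)).trans (hfin K₁ (Or.inl rfl)))
      · have e1 : ¬ (j + 1 ≤ N₁) := by omega
        simp only [e1, if_false]
        have e3 : (if j ≤ N₁ then x j else y (j - N₁)) = y (j - N₁) := by
          by_cases hj' : j ≤ N₁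
          · have : j = N₁ := le_antisymm hj' h'
            subst this
            simp [hx.last, hy.zero]
          · simp [hj']
        rw [e3]
        have e4 : j + 1 - N₁ = (j - N₁) + 1 := by omega
        rw [e4]
        exact (hys (j - N₁) (by omega)).trans
          ((hbound K₂ (N - N₁) (by omega)).trans (hfin K₂ (Or.inr rfl)))

end Pool.Agent.N788.Star
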