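import Mathlib
import Pool.Agent.N788.Star.Rect

open Finset Filter Topology Metric

set_option linter.unusedSectionVars false

namespace Pool.Agent.N788.Star

variable {V : Type*} [NormedAddCommGroup V] [InnerProductSpace ℝ V]

/-- `Vis E x r` : the points of `E` that see every point of `ball x r ∩ E`. -/
def Vis (E : Set V) (x : V) (r : ℝ) : Set V := {y | y ∈ E ∧ ∀ z ∈ ball x r ∩ E, segment ℝ y z ⊆ E}

/-- `Starl E x r` : the points towards which one can move inside `ball x r`. -/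
def Starl (E : Set V) (x : V) (r : ℝ) : Set V :=
  {q | ∀ e ∈ E ∩ ball x r, ∀ t ∈ Set.Icc (0 : ℝ) 1, e + t • (q - e) ∈ ball x r →
    e + t • (q - e) ∈ E}

lemma vis_subset_starl (E : Set V) (x : V) (r : ℝ) : Vis E x r ⊆ Starl E x r := by
  intro y hy e he t ht _
  apply hy.2 e ⟨he.2, he.1⟩
  rw [segment_symm, segment_eq_image']
  exact ⟨t, ht, rfl⟩

lemma isClosed_starl {E : Set V} (hE : IsClosed E) (x : V) (r : ℝ) : IsClosed (Starl E x r) := by
  rw [← isSeqClosed_iff_isClosed]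
  intro q q₀ hq hlim e he t ht hball
  have h1 : Tendsto (fun n => e + t • (q n - e)) atTop (𝓝 (e + t • (q₀ - e))) :=
    tendsto_const_nhds.add ((hlim.sub_const e).const_smul t)
  have h2 : ∀ᶠ n in atTop, e + t • (q n - e) ∈ ball x r :=
    h1.eventually (isOpen_ball.mem_nhds hball)
  refine hE.mem_of_tendsto h1 ?_
  filter_upwards [h2] with n hn
  exact hq n e he t ht hn

/-- small moves stay in an open ball -/
lemma exists_small {x e q : V} {r : ℝ} (he : e ∈ ball x r) :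
    ∃ τ > (0 : ℝ), ∀ t ∈ Set.Icc (0 : ℝ) τ, e + t • (q - e) ∈ ball x r := by
  have h1 : Tendsto (fun t : ℝ => e + t • (q - e)) (𝓝 0) (𝓝 (e + (0 : ℝ) • (q - e))) := by
    have : Continuous fun t : ℝ => e + t • (q - e) := by fun_prop
    exact this.tendsto 0
  rw [zero_smul, add_zero] at h1
  have h2 := h1.eventually (isOpen_ball.mem_nhds he)
  obtain ⟨τ, hτ, h3⟩ := Metric.eventually_nhds_iff.1 h2
  refine ⟨τ / 2, by linarith, fun t ht => h3 ?_⟩
  rw [Real.dist_eq, sub_zero, abs_of_nonneg ht.1]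
  linarith [ht.2]

lemma convex_starl {E : Set V} (hE : IsClosed E) (x : V) (r : ℝ) : Convex ℝ (Starl E x r) := by
  intro q₁ hq₁ q₂ hq₂ a b ha hb hab
  set q := a • q₁ + b • q₂ with hq
  intro e he t₁ ht₁ hball
  by_contra hnot
  -- the set of good parameters
  set T : Set ℝ := {t | t ∈ Set.Icc (0 : ℝ) t₁ ∧ e + t • (q - e) ∈ E} with hT
  have hcont : Continuous fun t : ℝ => e + t • (q - e) := by fun_prop
  have hTc : IsCompact T := by
    have : T = Set.Icc (0 : ℝ) t₁ ∩ (fun t : ℝ => e + t • (q - e)) ⁻¹' E := rfl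
    rw [this]
    exact isCompact_Icc.inter_right (hE.preimage hcont)
  have hTne : T.Nonempty := ⟨0, ⟨le_rfl, ht₁.1⟩, by simpa using he.1⟩
  obtain ⟨t₂, ht₂, hmax⟩ := hTc.exists_isMaxOn hTne (f := fun t : ℝ => t) continuousOn_id
  have hlt : t₂ < t₁ := by
    refine lt_of_le_of_ne ht₂.1.2 fun h => hnot ?_
    rw [← h]; exact ht₂.2
  set f := e + t₂ • (q - e) with hf
  have hfE : f ∈ E := ht₂.2
  -- `f` is in the ball by convexity
  have hfB : f ∈ ball x r := by
    have h1 : Convex ℝ (ball x r) := convex_ball x r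
    have h2 : f ∈ segment ℝ e (e + t₁ • (q - e)) := by
      rw [segment_eq_image']
      have ht1 : 0 < t₁ := lt_of_le_of_lt ht₂.1.1 hlt
      refine ⟨t₂ / t₁, ⟨div_nonneg ht₂.1.1 ht1.le, (div_le_one ht1).2 hlt.le⟩, ?_⟩
      simp only [hf]
      have : e + t₁ • (q - e) - e = t₁ • (q - e) := by abel
      rw [this, smul_smul, div_mul_cancel₀ _ ht1.ne']
    exact h1.segment_subset he.2 hball h2
  -- small step in two moves
  obtain ⟨τ₁, hτ₁, hs₁⟩ := exists_small (x := x) (r := r) (q := q₁) hfB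
  obtain ⟨τ₂, hτ₂, hs₂⟩ := exists_small (x := x) (r := r) (q := q) hfB
  have ht2 : t₂ < 1 := lt_of_lt_of_le hlt ht₁.2
  -- parameter
  obtain ⟨s, hs0, hs1, hsτ₁, hsτ₂, hst⟩ : ∃ s : ℝ, 0 < s ∧ s ≤ 1 / 2 ∧ 2 * s ≤ τ₁ ∧ s ≤ τ₂ ∧
      t₂ + s * (1 - t₂) ≤ t₁ := by
    refine ⟨min (min (1 / 2) (τ₁ / 2)) (min τ₂ (t₁ - t₂)), ?_, ?_, ?_, ?_, ?_⟩
    · refine lt_min (lt_min (by norm_num) (by linarith)) (lt_min hτ₂ (by linarith))
    · exact (min_le_left _ _).trans (min_le_left _ _)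
    · have := (min_le_left (min (1 / 2) (τ₁ / 2)) (min τ₂ (t₁ - t₂))).trans (min_le_right _ _)
      linarith
    · exact (min_le_right _ _).trans (min_le_left _ _)
    · have h1 := (min_le_right (min (1 / 2) (τ₁ / 2)) (min τ₂ (t₁ - t₂))).trans (min_le_right _ _)
      have h2 : 0 ≤ min (min (1 / 2) (τ₁ / 2)) (min τ₂ (t₁ - t₂)) :=
        le_min (le_min (by norm_num) (by linarith)) (le_min hτ₂.le (by linarith))
      have h3 := ht₂.1.1
      nlinarith
  have hb1 : b ≤ 1 := by linarith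
  have ha1 : a ≤ 1 := by linarith
  have hden : 0 < 1 - s * b := by nlinarith
  set σ := s * a / (1 - s * b) with hσ
  have hσ0 : 0 ≤ σ := div_nonneg (mul_nonneg hs0.le ha) hden.le
  have hσ2 : σ ≤ 2 * s := by
    rw [hσ, div_le_iff₀ hden]
    have h1 : s * b ≤ 1 / 2 := by nlinarith
    have h2 : 0 ≤ s * (2 - 2 * (s * b) - a) := mul_nonneg hs0.le (by linarith)
    linarith
  set g := f + σ • (q₁ - f) with hg
  have hgB : g ∈ ball x r := hs₁ σ ⟨hσ0, by linarith⟩
  have hgE : g ∈ E := hq₁ f ⟨hfE, hfB⟩ σ ⟨hσ0, by linarith⟩ hgB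
  have htarget : g + (s * b) • (q₂ - g) = f + s • (q - f) := by
    have e1 : g + (s * b) • (q₂ - g) = (1 - s * b) • g + (s * b) • q₂ := by module
    have e2 : (1 - s * b) • g = (1 - s * b) • f + (s * a) • (q₁ - f) := by
      rw [hg, smul_add, smul_smul]
      congr 2
      rw [hσ]; field_simp
    rw [e1, e2, hq]
    have hb' : b = 1 - a := by linarith
    rw [hb']
    module
  have htB : f + s • (q - f) ∈ ball x r := hs₂ s ⟨hs0.le, hsτ₂⟩
  have htE : f + s • (q - f) ∈ E := by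
    rw [← htarget]
    refine hq₂ g ⟨hgE, hgB⟩ (s * b) ⟨by positivity, by nlinarith⟩ ?_
    rw [htarget]; exact htB
  have hfinal : f + s • (q - f) = e + (t₂ + s * (1 - t₂)) • (q - e) := by
    rw [hf]; module
  rw [hfinal] at htE
  have hmem : t₂ + s * (1 - t₂) ∈ T := ⟨⟨by nlinarith [ht₂.1.1], hst⟩, htE⟩
  have h1 := hmax hmem
  simp only [Set.mem_ofPred_eq] at h1
  have : 0 < s * (1 - t₂) := by
    apply mul_pos hs0; linarith
  linarith

end Pool.Agent.N788.Star
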