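import Mathlib
import Pool.Agent.N788.Star.Geometry
import Pool.Agent.N788.Star.Defs

open Finset Filter Topology Metric

namespace Pool.Agent.N788.Star

variable {d : ℕ} {E : Set (EuclideanSpace ℝ (Fin d))}

/-- A point of `E` that is not LNC has a ball in which `E` is convex. -/
lemma exists_convex_ball {x : EuclideanSpace ℝ (Fin d)} (hx : x ∈ E) (h : ¬ IsLNC E x) :
    ∃ r : ℝ, 0 < r ∧ Convex ℝ (ball x r ∩ E) := by
  by_cases hf : x ∈ frontier E
  · unfold IsLNC at h
    push Not at h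
    exact h hf
  · have hint : x ∈ interior E := by
      by_contra hn
      exact hf ⟨subset_closure hx, hn⟩
    obtain ⟨r, hr, hball⟩ := Metric.mem_nhds_iff.1 (mem_interior_iff_mem_nhds.1 hint)
    refine ⟨r, hr, ?_⟩
    rw [Set.inter_eq_left.2 hball]
    exact convex_ball x r

lemma lnc_closed : IsClosed {x | IsLNC E x} := by
  rw [← isOpen_compl_iff, Metric.isOpen_iff]
  intro x hx
  by_cases hf : x ∈ frontier E
  · have h : ∃ r : ℝ, 0 < r ∧ Convex ℝ (ball x r ∩ E) := by
      by_contra hcon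
      push Not at hcon
      exact hx ⟨hf, hcon⟩
    obtain ⟨r, hr, hconv⟩ := h
    refine ⟨r / 2, by linarith, fun y hy hlnc => ?_⟩
    apply hlnc.2 (r / 2) (by linarith)
    have : ball y (r / 2) ∩ E = ball y (r / 2) ∩ (ball x r ∩ E) := by
      ext z
      constructor
      · rintro ⟨h1, h2⟩
        refine ⟨h1, ?_, h2⟩
        rw [mem_ball] at h1 hy ⊢
        calc dist z x ≤ dist z y + dist y x := dist_triangle _ _ _
          _ < r := by linarith
      · rintro ⟨h1, _, h2⟩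
        exact ⟨h1, h2⟩
    rw [this]
    exact (convex_ball y (r / 2)).inter hconv
  · have hopen : IsOpen (frontier E)ᶜ := isClosed_frontier.isOpen_compl
    obtain ⟨r, hr, hball⟩ := Metric.isOpen_iff.1 hopen x hf
    exact ⟨r, hr, fun y hy hlnc => hball hy hlnc.1⟩

lemma lnc_subset (hE : IsClosed E) : {x | IsLNC E x} ⊆ E := fun x hx =>
  hE.closure_eq ▸ frontier_subset_closure hx.1

lemma vis_anti {x x' : EuclideanSpace ℝ (Fin d)} {r r' : ℝ} (h : ball x' r' ⊆ ball x r) :
    Vis E x r ⊆ Vis E x' r' := fun _ hy => ⟨hy.1, fun z hz => hy.2 z ⟨h hz.1, hz.2⟩⟩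

/-- a uniform radius in property `C_n` -/
lemma uniform_radius (hE : IsCompact E) {n : ℕ} (hC : PropertyC n E) :
    ∃ r : ℝ, 0 < r ∧ ∀ x : Fin n → EuclideanSpace ℝ (Fin d), (∀ i, IsLNC E (x i)) →
      ∃ y, ∀ i, y ∈ Vis E (x i) r ∧ y ∈ E := by
  set Λ := {x | IsLNC E x} with hΛ
  have hΛc : IsCompact Λ := hE.of_isClosed_subset lnc_closed (lnc_subset hE.isClosed)
  have hK : IsCompact (Set.pi Set.univ (fun _ : Fin n => Λ)) := isCompact_univ_pi fun _ => hΛc
  set P : Set (Fin n → EuclideanSpace ℝ (Fin d)) → Prop := fun S =>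
    ∃ r : ℝ, 0 < r ∧ ∀ x ∈ S, ∃ y, ∀ i, y ∈ Vis E (x i) r ∧ y ∈ E with hP
  have hmain : P (Set.pi Set.univ (fun _ : Fin n => Λ)) := by
    refine hK.induction_on (p := P) ?_ ?_ ?_ ?_
    · exact ⟨1, one_pos, fun x hx => absurd hx (Set.notMem_empty x)⟩
    · rintro s t hst ⟨r, hr, h⟩
      exact ⟨r, hr, fun x hx => h x (hst hx)⟩
    · rintro s t ⟨r, hr, h⟩ ⟨r', hr', h'⟩
      refine ⟨min r r', lt_min hr hr', ?_⟩
      rintro x (hx | hx)
      · obtain ⟨y, hy⟩ := h x hx
        exact ⟨y, fun i => ⟨vis_anti (ball_subset_ball (min_le_left _ _)) (hy i).1, (hy i).2⟩⟩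
      · obtain ⟨y, hy⟩ := h' x hx
        exact ⟨y, fun i => ⟨vis_anti (ball_subset_ball (min_le_right _ _)) (hy i).1, (hy i).2⟩⟩
    · intro x hx
      obtain ⟨y, hyE, hy⟩ := hC x (fun i => hx i trivial)
      choose r hr hvis using hy
      -- minimal radius
      obtain ⟨r₀, hr₀, hr₀'⟩ : ∃ r₀ : ℝ, 0 < r₀ ∧ ∀ i, r₀ ≤ r i := by
        rcases isEmpty_or_nonempty (Fin n) with hem | hne
        · exact ⟨1, one_pos, fun i => (hem.false i).elim⟩
        · refine ⟨Finset.univ.inf' Finset.univ_nonempty r, ?_, fun i => ?_⟩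
          · rw [Finset.lt_inf'_iff]
            exact fun i _ => hr i
          · exact Finset.inf'_le _ (Finset.mem_univ i)
      refine ⟨ball x (r₀ / 2), mem_nhdsWithin_of_mem_nhds (ball_mem_nhds x (by linarith)),
        r₀ / 2, by linarith, fun x' hx' => ⟨y, fun i => ⟨?_, hyE⟩⟩⟩
      have h1 : y ∈ Vis E (x i) (r i) := ⟨hyE, hvis i⟩
      refine vis_anti ?_ h1
      intro z hz
      rw [mem_ball] at hz ⊢
      have h2 : dist (x' i) (x i) < r₀ / 2 :=
        (dist_le_pi_dist x' x i).trans_lt (mem_ball.1 hx')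
      calc dist z (x i) ≤ dist z (x' i) + dist (x' i) (x i) := dist_triangle _ _ _
        _ < r i := by linarith [hr₀' i]
  obtain ⟨r, hr, h⟩ := hmain
  exact ⟨r, hr, fun x hx => h x (fun i _ => hx i)⟩

/-- rectifiable connectedness -/
lemma rect_all (hconn : IsPreconnected E) {n : ℕ} (hn : 0 < n) (hC : PropertyC n E) :
    ∀ a ∈ E, ∀ b ∈ E, Rect E a b := by
  intro a ha b hb
  refine hconn.induction₂ (Rect E) ?_ ?_ ?_ ha hb
  · intro x hx
    by_cases hlnc : IsLNC E x
    · obtain ⟨y, hyE, hy⟩ := hC (fun _ => x) (fun _ => hlnc)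
      obtain ⟨r, hr, hvis⟩ := hy ⟨0, hn⟩
      have hxy : Rect E x y :=
        (rect_of_segment (hvis x ⟨mem_ball_self hr, hx⟩)).symm
      filter_upwards [mem_nhdsWithin_of_mem_nhds (ball_mem_nhds x hr), self_mem_nhdsWithin]
        with z hz hzE
      exact hxy.trans (rect_of_segment (hvis z ⟨hz, hzE⟩))
    · obtain ⟨r, hr, hconv⟩ := exists_convex_ball hx hlnc
      filter_upwards [mem_nhdsWithin_of_mem_nhds (ball_mem_nhds x hr), self_mem_nhdsWithin]
        with z hz hzE
      exact rect_of_segment ((hconv.segment_subset ⟨mem_ball_self hr, hx⟩ ⟨hz, hzE⟩).trans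
        Set.inter_subset_right)
  · intro x y z _ _ _ h1 h2
    exact h1.trans h2
  · intro x y _ _ h
    exact h.symm

/-- the local condition with a uniform radius -/
lemma local_cond (hE : IsCompact E) {p : EuclideanSpace ℝ (Fin d)} {r : ℝ} (hr : 0 < r)
    (hp : ∀ x, IsLNC E x → p ∈ Starl E x r) :
    ∃ ρ : ℝ, 0 < ρ ∧ ∀ c ∈ E, LocalCond E p ρ c := by
  set E' : Set (EuclideanSpace ℝ (Fin d)) := E \ ⋃ x ∈ {x | IsLNC E x}, ball x r with hE'
  have hE'c : IsCompact E' := hE.diff (isOpen_biUnion fun _ _ => isOpen_ball)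
  set P : Set (EuclideanSpace ℝ (Fin d)) → Prop := fun S =>
    ∃ ρ : ℝ, 0 < ρ ∧ ∀ c ∈ S, ∀ u ∈ E, ∀ v ∈ E, ‖u - c‖ ≤ ρ → ‖v - c‖ ≤ ρ →
      segment ℝ u v ⊆ E with hP
  have hmain : P E' := by
    refine hE'c.induction_on (p := P) ?_ ?_ ?_ ?_
    · exact ⟨1, one_pos, fun x hx => absurd hx (Set.notMem_empty x)⟩
    · rintro s t hst ⟨r, hr, h⟩
      exact ⟨r, hr, fun x hx => h x (hst hx)⟩
    · rintro s t ⟨r, hr, h⟩ ⟨r', hr', h'⟩
      refine ⟨min r r', lt_min hr hr', ?_⟩
      rintro x (hx | hx) u hu v hv h1 h2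
      · exact h x hx u hu v hv (h1.trans (min_le_left _ _)) (h2.trans (min_le_left _ _))
      · exact h' x hx u hu v hv (h1.trans (min_le_right _ _)) (h2.trans (min_le_right _ _))
    · intro x hx
      have hlnc : ¬ IsLNC E x := by
        intro h
        apply hx.2
        exact Set.mem_biUnion (show x ∈ {x | IsLNC E x} from h) (mem_ball_self hr)
      obtain ⟨s, hs, hconv⟩ := exists_convex_ball hx.1 hlnc
      refine ⟨ball x (s / 2), mem_nhdsWithin_of_mem_nhds (ball_mem_nhds x (by linarith)),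
        s / 4, by linarith, fun c hc u hu v hv h1 h2 => ?_⟩
      have hin : ∀ w ∈ E, ‖w - c‖ ≤ s / 4 → w ∈ ball x s ∩ E := by
        intro w hw hwc
        refine ⟨?_, hw⟩
        rw [mem_ball] at hc ⊢
        rw [← dist_eq_norm] at hwc
        calc dist w x ≤ dist w c + dist c x := dist_triangle _ _ _
          _ < s := by linarith
      exact (hconv.segment_subset (hin u hu h1) (hin v hv h2)).trans Set.inter_subset_right
  obtain ⟨ρ, hρ, h⟩ := hmain
  refine ⟨ρ, hρ, fun c hc => ?_⟩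
  by_cases hcE : c ∈ E'
  · exact Or.inl (h c hcE)
  · right
    have : c ∈ ⋃ x ∈ {x | IsLNC E x}, ball x r := by
      by_contra hcon
      exact hcE ⟨hc, hcon⟩
    obtain ⟨x, hx, hcx⟩ := Set.mem_iUnion₂.1 this
    obtain ⟨τ, hτ, hs⟩ := exists_small (q := p) hcx
    refine ⟨min τ 1, lt_min hτ one_pos, fun t ht => ?_⟩
    refine hp x hx c ⟨hc, hcx⟩ t ⟨ht.1, ht.2.trans (min_le_right _ _)⟩ ?_
    exact hs t ⟨ht.1, ht.2.trans (min_le_left _ _)⟩

/-- **Main theorem.** -/
theorem main (hE : IsCompact E) (hconn : IsConnected E) (hC : PropertyC (d + 1) E) :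
    Starshaped E := by
  obtain ⟨r, hr, hvis⟩ := uniform_radius hE hC
  have hrect := rect_all hconn.isPreconnected (Nat.succ_pos d) hC
  -- Helly
  set F : {x // IsLNC E x} → Set (EuclideanSpace ℝ (Fin d)) := fun x =>
    closure (convexHull ℝ (Vis E x.1 r)) with hF
  have hVE : ∀ x : {x // IsLNC E x}, Vis E x.1 r ⊆ E := fun x y hy => hy.1
  have hFc : ∀ x, IsCompact (F x) := by
    intro x
    apply Metric.isCompact_of_isClosed_isBounded isClosed_closure
    apply Bornology.IsBounded.closure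
    rw [isBounded_convexHull]
    exact hE.isBounded.subset (hVE x)
  have hFconv : ∀ x, Convex ℝ (F x) := fun x => (convex_convexHull ℝ _).closure
  have hinter : (⋂ x, F x).Nonempty := by
    refine Convex.helly_theorem_compact' (𝕜 := ℝ) hFconv hFc ?_
    intro I hI
    rw [finrank_euclideanSpace_fin] at hI
    rcases I.eq_empty_or_nonempty with h | ⟨x₀, hx₀⟩
    · subst h; simp
    · -- enumerate
      obtain ⟨g, hg⟩ : ∃ g : Fin (d + 1) → {x // IsLNC E x}, ∀ x ∈ I, ∃ i, g i = x := by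
        classical
        refine ⟨fun i => if h : i.1 < I.card then (I.equivFin.symm ⟨i.1, h⟩).1 else x₀, ?_⟩
        intro x hx
        set k := I.equivFin ⟨x, hx⟩ with hk
        refine ⟨⟨k.1, by have := k.2; omega⟩, ?_⟩
        have h1 : k.1 < I.card := k.2
        simp only [h1, dite_true, Fin.eta]
        rw [hk, Equiv.symm_apply_apply]
      obtain ⟨y, hy⟩ := hvis (fun i => (g i).1) (fun i => (g i).2)
      refine ⟨y, ?_⟩
      simp only [Set.mem_iInter]
      intro x hx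
      obtain ⟨i, hi⟩ := hg x hx
      rw [← hi]
      exact subset_closure (subset_convexHull ℝ _ (hy i).1)
  obtain ⟨p₀, hp₀⟩ := hinter
  rw [Set.mem_iInter] at hp₀
  -- the centre
  obtain ⟨p, hpS, hpE⟩ : ∃ p, (∀ x, IsLNC E x → p ∈ Starl E x r) ∧
      p ∈ closure (convexHull ℝ E) := by
    by_cases hne : ∃ x, IsLNC E x
    · obtain ⟨x, hx⟩ := hne
      refine ⟨p₀, fun z hz => ?_, ?_⟩
      · have h1 := hp₀ ⟨z, hz⟩
        exact closure_minimal (convexHull_min (vis_subset_starl E z r)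
          (convex_starl hE.isClosed z r)) (isClosed_starl hE.isClosed z r) h1
      · have h1 := hp₀ ⟨x, hx⟩
        exact closure_mono (convexHull_mono (hVE ⟨x, hx⟩)) h1
    · obtain ⟨e, he⟩ := hconn.nonempty
      push Not at hne
      exact ⟨e, fun z hz => absurd hz (hne z), subset_closure (subset_convexHull ℝ _ he)⟩
  obtain ⟨ρ, hρ, hloc⟩ := local_cond hE hr hpS
  obtain ⟨h1, h2⟩ := star_of_local hE hconn.nonempty hρ hloc hrect hpE
  exact ⟨p, h1, h2⟩

end Pool.Agent.N788.Star
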